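import Mathlib

namespace Pool.Agent.Results.MP_0f2923_nt.Yes

open MeasureTheory Set Real Pointwise

def q : Fin 7 → ℤ := ![8, 9, 11, 13, 17, 19, 23]

def A : Fin 7 → List ℤ := ![[1, 3, 4, 5, 7], [2, 3, 5, 8], [2, 6, 7, 8, 10], [1, 4, 5, 6, 11],
  [2, 3, 5, 8, 12, 13, 14], [1, 5, 6, 8, 11, 13, 14, 18], [2, 3, 5, 7, 8, 9, 11, 12, 19, 20]]

def good (d : ℤ) : Prop := ∀ j : Fin 7, (d - (j : ℕ)) % q j ∈ A j

theorem miss {d e : ℤ} (hd : good d) (he : good e) (j : Fin 7) :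
    ¬ (76488984 : ℤ) ∣ 2 * d - e - (j : ℕ) := fun h => by
  have k : ∀ j, q j ∣ 76488984 ∧ ∀ x ∈ A j, ∀ y ∈ A j, ¬ q j ∣ 2 * x - y := by decide
  refine (k j).2 _ (hd j) _ (he j) ?_
  have := dvd_sub (dvd_sub ((k j).1.trans h) ((dvd_mul_right (q j) ((d - (j : ℕ)) / q j)).mul_left 2))
    (dvd_mul_right (q j) (-((e - (j : ℕ)) / q j)))
  rw [Int.emod_def, Int.emod_def]
  exact this.trans (dvd_of_eq (by ring))

theorem ex (t : ℤ) : ∃ a : Fin 76488984, good (a : ℕ) ∧ good ((a : ℕ) + t) := by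
  have k : ∀ j, 0 < q j ∧ ∀ s ∈ Finset.Ico 0 (q j), ∃ x ∈ A j, x % q j = x ∧ (x + s) % q j ∈ A j := by
    decide +kernel
  choose x h1 h2 h3 using fun j => (k j).2 (t % q j)
    (Finset.mem_Ico.2 ⟨Int.emod_nonneg _ (k j).1.ne', Int.emod_lt_of_pos _ (k j).1⟩)
  obtain ⟨a, a0, a1, ha⟩ : ∃ a : ℤ, 0 ≤ a ∧ a < 76488984 ∧ ∀ j : Fin 7, a - (j : ℕ) ≡ x j [ZMOD q j] := by
    refine ⟨(28683369 * (x 0 + 0) + 59491432 * (x 1 + 1) + 20860632 * (x 2 + 2) + 11767536 * (x 3 + 3) + 17997408 * (x 4 + 4) + 24154416 * (x 5 + 5) + 66512160 * (x 6 + 6)) % 76488984, by omega, by omega, fun j => ?_⟩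
    unfold Int.ModEq
    fin_cases j <;> simp [q] <;> omega
  lift a to ℕ using a0
  refine ⟨⟨a, by omega⟩, fun j => ?_, fun j => ?_⟩
  · rw [ha j, h2]; exact h1 j
  · rw [add_sub_right_comm, ((ha j).add (Int.mod_modEq t (q j)).symm).eq]; exact h3 j

def E0 : Set ℝ := {x | ∃ a t : ℕ → Fin 76488984, (∀ i, good ((a i : ℕ) + (t i : ℕ))) ∧
  x = ofDigits a + ofDigits t}

theorem E0_bd {x : ℝ} (h : x ∈ E0) : 0 ≤ x ∧ x ≤ 2 := by
  obtain ⟨a, t, -, rfl⟩ := h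
  exact ⟨add_nonneg (ofDigits_nonneg a) (ofDigits_nonneg t),
    by linarith [ofDigits_le_one a, ofDigits_le_one t]⟩

theorem E0_step {x : ℝ} (h : x ∈ E0) : ∃ d : ℤ, good d ∧ ∃ y ∈ E0, 76488984 * x = d + y := by
  obtain ⟨a, t, h, rfl⟩ := h
  refine ⟨_, h 0, _, ⟨fun i => a (i + 1), fun i => t (i + 1), fun i => h _, rfl⟩, ?_⟩
  rw [ofDigits_eq_sum_add_ofDigits a 1, ofDigits_eq_sum_add_ofDigits t 1]
  simp [ofDigitsTerm]
  ring

def W : Set ℝ := {w | ∃ n : ℤ, ∃ x ∈ E0, ∃ y ∈ E0, w = n + 2 * x - y}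

theorem W_add {w : ℝ} (h : w ∈ W) (k : ℤ) : w + k ∈ W := by
  obtain ⟨n, x, hx, y, hy, rfl⟩ := h
  exact ⟨n + k, x, hx, y, hy, by push_cast; ring⟩

theorem W_step {w : ℝ} (h : w ∈ W) : 76488984 * w ∈ W ∧ ⌊76488984 * w⌋ ≠ 4 := by
  obtain ⟨n, x, hx, y, hy, rfl⟩ := h
  obtain ⟨d, hd, x', hx', e1⟩ := E0_step hx
  obtain ⟨e, he, y', hy', e2⟩ := E0_step hy
  have : (76488984 : ℝ) * (n + 2 * x - y) = (76488984 * n + 2 * d - e : ℤ) + 2 * x' - y' := by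
    push_cast; linarith
  refine ⟨⟨_, x', hx', y', hy', this⟩, fun h => ?_⟩
  rw [this, add_sub_assoc, Int.floor_intCast_add] at h
  have b1 := E0_bd hx'
  have b2 := E0_bd hy'
  have c1 : -2 ≤ ⌊2 * x' - y'⌋ := Int.le_floor.2 (by push_cast; linarith)
  have c2 : ⌊2 * x' - y'⌋ < 5 := Int.floor_lt.2 (by push_cast; linarith)
  exact miss hd he ⟨(4 - ⌊2 * x' - y'⌋).toNat, by omega⟩ ⟨-n, by simp only; omega⟩

theorem null {W : Set ℝ} {c : ℕ} (hc : 4 ≤ c) (add : ∀ w ∈ W, ∀ k : ℤ, w + k ∈ W)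
    (step : ∀ w ∈ W, (c + 1 : ℝ) * w ∈ W ∧ ⌊(c + 1 : ℝ) * w⌋ ≠ 4) : volume W = 0 := by
  have tr : ∀ k : ℤ, volume (W ∩ Ico (k : ℝ) (k + 1)) ≤ volume (W ∩ Ico 0 1) := fun k => by
    rw [← measure_preimage_add_right volume (-k : ℝ) (W ∩ Ico 0 1)]
    refine measure_mono fun w h => ⟨by simpa using add _ h.1 (-k), ?_, ?_⟩ <;>
      linarith [h.2.1, h.2.2]
  have c0 : (0 : ℝ) < c + 1 := by positivity
  have h0 : volume (W ∩ Ico 0 1) = 0 := by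
    have fin : volume (W ∩ Ico 0 1) ≠ ⊤ := ((measure_mono inter_subset_right).trans_lt
      measure_Ico_lt_top).ne
    have h1 : W ∩ Ico 0 1 ⊆ (fun w => (c + 1 : ℝ) * w) ⁻¹'
        ⋃ k ∈ (Finset.Ico (0 : ℤ) (c + 1)).erase 4, W ∩ Ico (k : ℝ) (k + 1) := fun w h => by
      simp only [mem_preimage, mem_iUnion]
      refine ⟨⌊(c + 1 : ℝ) * w⌋, Finset.mem_erase.2 ⟨(step _ h.1).2, Finset.mem_Ico.2
        ⟨Int.floor_nonneg.2 (mul_nonneg c0.le h.2.1), Int.floor_lt.2 (by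
          push_cast; exact mul_lt_of_lt_one_right c0 h.2.2)⟩⟩,
        (step _ h.1).1, Int.floor_le _, Int.lt_floor_add_one _⟩
    have h2 := (measure_mono h1).trans_eq (volume_preimage_mul_left c0.ne' _)
    have h3 := (measure_biUnion_finset_le (μ := volume) ((Finset.Ico (0 : ℤ) (c + 1)).erase 4)
      fun k => W ∩ Ico (k : ℝ) (k + 1)).trans (Finset.sum_le_card_nsmul _ _ _ fun k _ => tr k)
    rw [Finset.card_erase_of_mem (Finset.mem_Ico.2 ⟨by omega, by omega⟩), Int.card_Ico,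
      nsmul_eq_mul, show ((c : ℤ) + 1 - 0).toNat - 1 = c by omega] at h3
    have h4 := ENNReal.toReal_mono (ENNReal.mul_ne_top ENNReal.ofReal_ne_top
      (ENNReal.mul_ne_top (ENNReal.natCast_ne_top _) fin)) (h2.trans (mul_le_mul_right h3 _))
    rw [ENNReal.toReal_mul, ENNReal.toReal_mul, ENNReal.toReal_ofReal (abs_nonneg _),
      ENNReal.toReal_natCast, abs_of_pos (inv_pos.2 c0), le_inv_mul_iff₀ c0] at h4
    have h5 := ENNReal.toReal_nonneg (a := volume (W ∩ Ico 0 1))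
    exact ((ENNReal.toReal_eq_zero_iff _).1 (by linarith)).resolve_right fin
  refine measure_mono_null (t := ⋃ k : ℤ, W ∩ Ico (k : ℝ) (k + 1)) (fun w h => mem_iUnion.2
    ⟨⌊w⌋, h, Int.floor_le _, Int.lt_floor_add_one _⟩) (measure_iUnion_null fun k => ?_)
  exact le_antisymm (h0 ▸ tr k) bot_le

theorem W_null : volume W = 0 := null (c := 76488983) (by norm_num) (fun _ h => W_add h)
  fun _ h => by
    rw [show ((76488983 : ℕ) : ℝ) + 1 = 76488984 by norm_num]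
    exact W_step h

theorem result : ∃ E : Set ℝ, E ⊆ Ioi 0 ∧ E - E = univ ∧
    volume {y : ℝ | ∃ e₁ ∈ E, ∃ e₂ ∈ E, y = 2 * e₁ - e₂} = 0 := by
  refine ⟨{x | ∃ n : ℕ, ∃ y ∈ E0, x = n + 1 + y}, ?_, eq_univ_of_forall fun r => ?_,
    measure_mono_null ?_ W_null⟩
  · rintro _ ⟨n, y, hy, rfl⟩
    have := (E0_bd hy).1
    rw [mem_Ioi]
    positivity
  · choose a h1 h2 using fun i => ex (digits (Int.fract r) 76488984 i : ℕ)
    have e := ofDigits_digits (b := 76488984) (by norm_num) ⟨Int.fract_nonneg r, Int.fract_lt_one r⟩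
    have z : ofDigits (fun _ => (0 : Fin 76488984)) = 0 := by simp [ofDigits, ofDigitsTerm]
    refine ⟨_, ⟨⌊r⌋.toNat, _, ⟨a, _, h2, rfl⟩, rfl⟩, _,
      ⟨(-⌊r⌋).toNat, _, ⟨a, fun _ => 0, by simpa using h1, rfl⟩, rfl⟩, ?_⟩
    have : ((⌊r⌋.toNat : ℤ) : ℝ) - ((-⌊r⌋).toNat : ℤ) = ⌊r⌋ := by
      exact_mod_cast Int.toNat_sub_toNat_neg ⌊r⌋
    push_cast at this
    simp only [e, z]
    linarith [Int.floor_add_fract r]
  · rintro _ ⟨_, ⟨n, x, hx, rfl⟩, _, ⟨m, y, hy, rfl⟩, rfl⟩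
    exact ⟨2 * n + 1 - m, x, hx, y, hy, by push_cast; ring⟩

end Pool.Agent.Results.MP_0f2923_nt.Yes
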